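import Pool.Agent.W2helper56.PK.Stm
import Pool.Agent.W2helper56.PK.Tree

/-!
# Piece A4 of project PK: the iterated attack
-/

set_option autoImplicit false

namespace Pool.Agent.W2helper97.PK

open Pool.Agent.NPC Pool.Agent.H620R2.Gauge Pool.Agent.W2helper56.PK

/-- a set of size at most `q` meets at most `q` of the differences of an increasing sequence -/
theorem few_new {X : Type} [DecidableEq X] (K : ℕ → Finset X) (hK : ∀ i, K i ⊆ K (i + 1))
    (Q : Finset X) (q k : ℕ) (hQ : Q.card ≤ q)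
    (_ : DecidablePred fun i => ∃ x, x ∈ Q ∧ x ∈ K (i + 1) ∧ x ∉ K i) :
    ((Finset.range k).filter fun i => ∃ x, x ∈ Q ∧ x ∈ K (i + 1) ∧ x ∉ K i).card ≤ q := by
  classical
  have hmono : Monotone K := monotone_nat_of_le_succ hK
  refine le_trans (Finset.card_le_card_of_injOn
    (fun i => if h : ∃ x, x ∈ Q ∧ x ∈ K (i + 1) ∧ x ∉ K i then some h.choose else none)
    (t := Q.image some) ?_ ?_) (le_trans Finset.card_image_le hQ)
  · intro i hi
    have hi' : ∃ x, x ∈ Q ∧ x ∈ K (i + 1) ∧ x ∉ K i := by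
      have := (Finset.mem_filter.1 (Finset.mem_coe.1 hi)).2
      exact this
    simp only [dif_pos hi']
    exact Finset.mem_coe.2 (Finset.mem_image.2 ⟨_, hi'.choose_spec.1, rfl⟩)
  · intro i hi j hj hij
    have hi' : ∃ x, x ∈ Q ∧ x ∈ K (i + 1) ∧ x ∉ K i :=
      (Finset.mem_filter.1 (Finset.mem_coe.1 hi)).2
    have hj' : ∃ x, x ∈ Q ∧ x ∈ K (j + 1) ∧ x ∉ K j :=
      (Finset.mem_filter.1 (Finset.mem_coe.1 hj)).2
    simp only [dif_pos hi', dif_pos hj', Option.some.injEq] at hij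
    have h1 := hi'.choose_spec.2
    have h2 := hj'.choose_spec.2
    rw [← hij] at h2
    rcases lt_trichotomy i j with h | h | h
    · exact absurd (hmono (show i + 1 ≤ j from h) h1.1) h2.2
    · exact h
    · exact absurd (hmono (show j + 1 ≤ i from h) h2.1) h1.2

/-- double counting -/
theorem sum_card_le {T : Type} [Fintype T] (k q : ℕ) (R : ℕ → T → Prop)
    (h : ∀ t, ∀ _ : DecidablePred fun i => R i t,
      ((Finset.range k).filter fun i => R i t).card ≤ q) :
    ∑ i ∈ Finset.range k, Nat.card {t // R i t} ≤ q * Nat.card T := by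
  classical
  have h1 : ∀ i, Nat.card {t // R i t} = ∑ t : T, if R i t then 1 else 0 := by
    intro i
    rw [Nat.card_eq_fintype_card, Fintype.card_subtype, Finset.card_filter]
  simp_rw [h1]
  rw [Finset.sum_comm]
  calc ∑ t : T, ∑ i ∈ Finset.range k, (if R i t then 1 else 0)
      ≤ ∑ _t : T, q := by
        refine Finset.sum_le_sum fun t _ => ?_
        rw [← Finset.card_filter]
        exact h t _
    _ = q * Nat.card T := by
        rw [Finset.sum_const, Finset.card_univ, Nat.card_eq_fintype_card, smul_eq_mul, mul_comm]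

theorem card_pos_le {X A B : Type} [DecidableEq X] (S : Sch X A B) (l : List (List Bool)) :
    (S.pos l).card ≤ l.length :=
  le_trans (List.toFinset_card_le _) (List.length_filterMap_le _ _)

/-- **Piece A4.** -/
theorem p_it (h1 : P_bobs) (h2 : P_step) : P_it := by
  intro X A B _ _ _ _ _ _ S q k G hk hS
  classical
  obtain ⟨P₀, hP₀, hU⟩ := h1 X A B S q k G hk hS
  -- the sequence of adversaries
  have hstep : ∀ (n : ℕ) (P : Att Unit), (∀ pk c, (P pk c).Le n ∧ (P pk c).All G) →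
      ∃ (P' : Att Unit) (Gs : Att Bool),
        (∀ pk c, (P' pk c).Le (n + 2 * q) ∧ (P' pk c).All G) ∧
        (∀ pk c, (Gs pk c).Le (n + 2 * q) ∧ (Gs pk c).All G) ∧
        (∀ t, S.known P t ⊆ S.known P' t) ∧
        Nat.card {t : S.Smp // S.WrongG Gs t} ≤ Nat.card {t : S.Smp // S.Wrong t} +
          Nat.card {t : S.Smp // ∃ x, x ∈ S.QB t ∧ x ∈ S.QA t ∧ x ∉ S.known P t} +
          Nat.card {t : S.Smp // ∃ x, x ∈ S.QB t ∧ x ∈ S.known P' t ∧ x ∉ S.known P t} +
          Nat.card {t : S.Smp // ∃ x, x ∈ S.QA t ∧ x ∈ S.known P' t ∧ x ∉ S.known P t} :=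
    fun n P hP => h2 X A B S q n G hS P hP
  choose nx gs hnx hgs hkn hcard using hstep
  let sq : (i : ℕ) → {P : Att Unit // ∀ pk c, (P pk c).Le (k * q + i * (2 * q)) ∧ (P pk c).All G} :=
    fun i => Nat.rec (motive := fun i =>
        {P : Att Unit // ∀ pk c, (P pk c).Le (k * q + i * (2 * q)) ∧ (P pk c).All G})
      ⟨P₀, fun pk c => by simpa using hP₀ pk c⟩
      (fun i P => ⟨nx (k * q + i * (2 * q)) P.1 P.2, fun pk c => by
        have := hnx (k * q + i * (2 * q)) P.1 P.2 pk c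
        rw [show k * q + (i + 1) * (2 * q) = k * q + i * (2 * q) + 2 * q by ring]
        exact this⟩) i
  have hs0 : (sq 0).1 = P₀ := rfl
  have hs1 : ∀ i, (sq (i + 1)).1 = nx (k * q + i * (2 * q)) (sq i).1 (sq i).2 := fun i => rfl
  let gu : ℕ → Att Bool := fun i => gs (k * q + i * (2 * q)) (sq i).1 (sq i).2
  have hmono : ∀ t i, S.known (sq i).1 t ⊆ S.known (sq (i + 1)).1 t := by
    intro t i
    rw [hs1]
    exact hkn _ _ _ t
  -- the bound for each step
  have hb : ∀ i, Nat.card {t : S.Smp // S.WrongG (gu i) t} ≤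
      Nat.card {t : S.Smp // S.Wrong t} +
      Nat.card {t : S.Smp // ∃ x, x ∈ S.QB t ∧ x ∈ S.QA t ∧ x ∉ S.known P₀ t} +
      Nat.card {t : S.Smp // ∃ x, x ∈ S.QB t ∧ x ∈ S.known (sq (i + 1)).1 t ∧
        x ∉ S.known (sq i).1 t} +
      Nat.card {t : S.Smp // ∃ x, x ∈ S.QA t ∧ x ∈ S.known (sq (i + 1)).1 t ∧
        x ∉ S.known (sq i).1 t} := by
    intro i
    have h := hcard (k * q + i * (2 * q)) (sq i).1 (sq i).2
    rw [← hs1] at h
    refine le_trans h ?_
    have h0 : Nat.card {t : S.Smp // ∃ x, x ∈ S.QB t ∧ x ∈ S.QA t ∧ x ∉ S.known (sq i).1 t} ≤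
        Nat.card {t : S.Smp // ∃ x, x ∈ S.QB t ∧ x ∈ S.QA t ∧ x ∉ S.known P₀ t} := by
      refine Nat.card_le_card_of_injective
        (Subtype.map id fun t ⟨x, hx, hy, hz⟩ => ⟨x, hx, hy, fun hw => hz ?_⟩)
        (Subtype.map_injective _ Function.injective_id)
      have hm : Monotone fun i => S.known (sq i).1 t := monotone_nat_of_le_succ (hmono t)
      exact hm (Nat.zero_le i) hw
    omega
  have hqa : ∀ t, (S.QA t).card ≤ q := fun t =>
    le_trans (card_pos_le S _) (DT.length_qs _ (hS.gen_le _))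
  have hqb : ∀ t, (S.QB t).card ≤ q := fun t =>
    le_trans (card_pos_le S _) (DT.length_qs _ (hS.enc_le _ _ _))
  have hB : ∑ i ∈ Finset.range k, Nat.card {t : S.Smp // ∃ x, x ∈ S.QB t ∧
      x ∈ S.known (sq (i + 1)).1 t ∧ x ∉ S.known (sq i).1 t} ≤ q * Nat.card S.Smp := by
    refine sum_card_le k q (fun i t => ∃ x, x ∈ S.QB t ∧
      x ∈ S.known (sq (i + 1)).1 t ∧ x ∉ S.known (sq i).1 t) fun t hd => ?_
    exact few_new (fun i => S.known (sq i).1 t) (hmono t) (S.QB t) q k (hqb t) hd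
  have hA : ∑ i ∈ Finset.range k, Nat.card {t : S.Smp // ∃ x, x ∈ S.QA t ∧
      x ∈ S.known (sq (i + 1)).1 t ∧ x ∉ S.known (sq i).1 t} ≤ q * Nat.card S.Smp := by
    refine sum_card_le k q (fun i t => ∃ x, x ∈ S.QA t ∧
      x ∈ S.known (sq (i + 1)).1 t ∧ x ∉ S.known (sq i).1 t) fun t hd => ?_
    exact few_new (fun i => S.known (sq i).1 t) (hmono t) (S.QA t) q k (hqa t) hd
  -- the sum
  have hsum : ∑ i ∈ Finset.range k, Nat.card {t : S.Smp // S.WrongG (gu i) t} ≤
      k * Nat.card {t : S.Smp // S.Wrong t} + 3 * q * Nat.card S.Smp := by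
    have h := Finset.sum_le_sum fun i (_ : i ∈ Finset.range k) => hb i
    rw [Finset.sum_add_distrib, Finset.sum_add_distrib, Finset.sum_add_distrib, Finset.sum_const,
      Finset.sum_const, Finset.card_range, smul_eq_mul, smul_eq_mul] at h
    nlinarith
  -- the best guess
  obtain ⟨i, hi, him⟩ := Finset.exists_min_image (Finset.range k)
    (fun i => Nat.card {t : S.Smp // S.WrongG (gu i) t}) ⟨0, Finset.mem_range.2 hk⟩
  refine ⟨gu i, fun pk c => ?_, ?_⟩
  · have h := hgs (k * q + i * (2 * q)) (sq i).1 (sq i).2 pk c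
    refine ⟨DT.Le.mono ?_ h.1, h.2⟩
    have hi' := Finset.mem_range.1 hi
    have : (i + 1) * (2 * q) ≤ k * (2 * q) := Nat.mul_le_mul_right _ hi'
    nlinarith
  · refine le_trans ?_ hsum
    have h := Finset.card_nsmul_le_sum (Finset.range k)
      (fun i => Nat.card {t : S.Smp // S.WrongG (gu i) t})
      (Nat.card {t : S.Smp // S.WrongG (gu i) t}) (fun j hj => him j hj)
    rwa [Finset.card_range, smul_eq_mul] at h

end Pool.Agent.W2helper97.PK
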